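import Mathlib
import Pool.Agent.W684.PT.Stm

/-!
Part PT-TWIST: existence of automorphisms of the coding.
-/

set_option autoImplicit false

open Equiv Filter
open Pool.Agent.W684.PT

namespace Pool.Agent.W335.PT

/-- permutations agreeing on the points moved by `p` conjugate `p` to the same permutation -/
lemma conj_agree {A : Type} {g h p : Perm A} (H : ∀ y, p y ≠ y → g y = h y) :
    g * p * g⁻¹ = h * p * h⁻¹ := by
  apply Equiv.ext
  intro u
  simp only [Perm.mul_apply]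
  by_cases h1 : p (g⁻¹ u) = g⁻¹ u
  · rw [h1]
    by_cases h2 : p (h⁻¹ u) = h⁻¹ u
    · rw [h2]
      simp
    · exfalso
      have h3 := H _ h2
      have h4 : h (h⁻¹ u) = u := by simp
      rw [h4] at h3
      have h5 : g⁻¹ u = h⁻¹ u := Perm.inv_eq_iff_eq.2 h3.symm
      rw [h5] at h1
      exact h2 h1
  · have h3 := H _ h1
    have h4 : g (g⁻¹ u) = u := by simp
    rw [h4] at h3
    have h5 : h⁻¹ u = g⁻¹ u := Perm.inv_eq_iff_eq.2 h3
    rw [h5]
    apply H
    intro h6
    exact h1 (p.injective h6)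

open Classical in
lemma typeOne_conj {A : Type} {s : A → A → Prop} {g : Perm A}
    (hg : ∀ x y, s (g x) (g y) ↔ s x y) {X : Finset A} {p : Perm A} (h : TypeOne s X p) :
    TypeOne s (X.image g) (g * p * g⁻¹) := by
  obtain ⟨x, x', x'', y, y', y'', z, z', z'', hx, hy, hz, h1, h2, h3, hX, hp⟩ := h
  have hb : ∀ {a b c : A}, Blk s a b c → Blk s (g a) (g b) (g c) := by
    rintro a b c ⟨h1, h2, h3, h4, h5, h6⟩
    exact ⟨(hg _ _).2 h1, (hg _ _).2 h2, (hg _ _).2 h3, fun h => h4 (g.injective h),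
      fun h => h5 (g.injective h), fun h => h6 (g.injective h)⟩
  refine ⟨g x, g x', g x'', g y, g y', g y'', g z, g z', g z'', hb hx, hb hy, hb hz,
    fun h => h1 ((hg _ _).1 h), fun h => h2 ((hg _ _).1 h), fun h => h3 ((hg _ _).1 h), ?_, ?_⟩
  · rw [hX]
    simp [Finset.image_insert, Finset.image_singleton]
  · rw [hp, Equiv.swap_apply_apply, Equiv.swap_apply_apply, Equiv.swap_apply_apply]
    group

open Classical in
lemma typeTwo_conj {A : Type} {s : A → A → Prop} {g : Perm A}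
    (hg : ∀ x y, s (g x) (g y) ↔ s x y) {X : Finset A} {p : Perm A} (h : TypeTwo s X p) :
    TypeTwo s (X.image g) (g * p * g⁻¹) := by
  obtain ⟨x, y, w, z, hx, h1, hX, hp⟩ := h
  have hb : ∀ {a b c : A}, Blk s a b c → Blk s (g a) (g b) (g c) := by
    rintro a b c ⟨h1, h2, h3, h4, h5, h6⟩
    exact ⟨(hg _ _).2 h1, (hg _ _).2 h2, (hg _ _).2 h3, fun h => h4 (g.injective h),
      fun h => h5 (g.injective h), fun h => h6 (g.injective h)⟩
  refine ⟨g x, g y, g w, g z, hb hx, fun h => h1 ((hg _ _).1 h), ?_, ?_⟩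
  · rw [hX]
    simp [Finset.image_insert, Finset.image_singleton]
  · rw [hp, Equiv.swap_apply_apply, Equiv.swap_apply_apply]
    group

open Classical in
lemma code_conj {A : Type} {s : A → A → Prop} {g : Perm A}
    (hg : ∀ x y, s (g x) (g y) ↔ s x y) {X : Finset A} {p : Perm A} (h : Code s X p) :
    Code s (X.image g) (g * p * g⁻¹) :=
  h.imp (typeOne_conj hg) (typeTwo_conj hg)

/-- `g` preserves the classes -/
def Good {A : Type} (cd : A → Perm A) (g : Perm A) : Prop :=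
  ∀ x y, cd (g x) = cd (g y) ↔ cd x = cd y

lemma Good.inv {A : Type} {cd : A → Perm A} {g : Perm A} (hg : Good cd g) : Good cd g⁻¹ := by
  intro x y
  have := hg (g⁻¹ x) (g⁻¹ y)
  simpa using this.symm

lemma fty_conj {A : Type} {g p : Perm A} (hp : Fty p) : Fty (g * p * g⁻¹) := by
  refine (hp.image g).subset ?_
  intro u hu
  refine ⟨g⁻¹ u, ?_, by simp⟩
  intro h
  apply hu
  simp only [Perm.mul_apply]
  rw [h]
  simp

/-- conjugation by a good permutation maps the coded permutations to coded permutations -/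
lemma conj_mem {A : Type} (S : Sol A) {g : Perm A} (hg : Good S.cd g) (x : A) :
    ∃ y, S.cd y = g * S.cd x * g⁻¹ := by
  apply S.surj _ (fty_conj (S.fty x))
  intro X hX
  have h := code_conj (s := fun u v => S.cd u = S.cd v) (g := g⁻¹) (fun a b => hg.inv a b) hX
  have h2 : g⁻¹ * (g * S.cd x * g⁻¹) * g⁻¹⁻¹ = S.cd x := by group
  rw [h2] at h
  exact S.nc x _ h

/-- the index functions -/
lemma exists_index {A : Type} (S : Sol A) (a : A) :
    ∃ (pt : Perm A → Fin 3 → A) (idx : A → Fin 3), (∀ x, pt (S.cd x) (idx x) = x) ∧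
      ∀ p, (∃ x, S.cd x = p) → ∀ i, S.cd (pt p i) = p ∧ idx (pt p i) = i := by
  have h1 : ∀ p : Perm A, ∃ f : Fin 3 → A, (∃ x, S.cd x = p) →
      Function.Injective f ∧ (∀ i, S.cd (f i) = p) ∧ ∀ x, S.cd x = p → ∃ i, f i = x := by
    intro p
    by_cases hp : ∃ x, S.cd x = p
    · obtain ⟨x, hx⟩ := hp
      obtain ⟨y, z, ⟨h1, h2, h3, h4, h5, h6⟩, h7⟩ := S.three x
      refine ⟨![x, y, z], fun _ => ⟨?_, ?_, ?_⟩⟩
      · intro i j hij
        fin_cases i <;> fin_cases j <;> simp_all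
      · intro i
        fin_cases i
        · exact hx
        · exact h1.symm.trans hx
        · exact h2.symm.trans hx
      · intro u hu
        rcases h7 u (hx.trans hu.symm) with h | h | h
        · exact ⟨0, h.symm⟩
        · exact ⟨1, h.symm⟩
        · exact ⟨2, h.symm⟩
    · exact ⟨fun _ => a, fun h => absurd h hp⟩
  choose pt hpt using h1
  have h2 : ∀ x, ∃ i, pt (S.cd x) i = x := fun x => (hpt (S.cd x) ⟨x, rfl⟩).2.2 x rfl
  choose idx hidx using h2
  refine ⟨pt, idx, hidx, fun p hp i => ?_⟩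
  obtain ⟨h3, h4, h5⟩ := hpt p hp
  refine ⟨h4 i, h3 ?_⟩
  have h6 := hidx (pt p i)
  rw [h4 i] at h6
  exact h6

section main

variable {A : Type} (S : Sol A) (τ : Perm A) (hτ : ∀ x, S.cd (τ x) = S.cd x)
  (hττ : ∀ x, τ (τ x) = x)
  (pt : Perm A → Fin 3 → A) (idx : A → Fin 3) (hpt : ∀ x, pt (S.cd x) (idx x) = x)
  (hidx : ∀ p, (∃ x, S.cd x = p) → ∀ i, S.cd (pt p i) = p ∧ idx (pt p i) = i)

/-- the next permutation -/
def next (g : {g : Perm A // Good S.cd g}) : {g : Perm A // Good S.cd g} :=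
  ⟨{ toFun := fun x => pt (g.1 * S.cd x * g.1⁻¹) (idx (τ x))
     invFun := fun y => τ (pt (g.1⁻¹ * S.cd y * g.1) (idx y))
     left_inv := by
      intro x
      obtain ⟨h1, h2⟩ := hidx _ (conj_mem S g.2 x) (idx (τ x))
      show τ (pt (g.1⁻¹ * S.cd (pt (g.1 * S.cd x * g.1⁻¹) (idx (τ x))) * g.1)
        (idx (pt (g.1 * S.cd x * g.1⁻¹) (idx (τ x))))) = x
      rw [h1, h2]
      have h3 : g.1⁻¹ * (g.1 * S.cd x * g.1⁻¹) * g.1 = S.cd (τ x) := by
        rw [hτ]
        group
      rw [h3, hpt, hττ]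
     right_inv := by
      intro y
      have h0 : ∃ u, S.cd u = g.1⁻¹ * S.cd y * g.1 := by
        have := conj_mem S g.2.inv y
        rwa [inv_inv] at this
      obtain ⟨h1, h2⟩ := hidx _ h0 (idx y)
      show pt (g.1 * S.cd (τ (pt (g.1⁻¹ * S.cd y * g.1) (idx y))) * g.1⁻¹)
        (idx (τ (τ (pt (g.1⁻¹ * S.cd y * g.1) (idx y))))) = y
      rw [hτ, hττ, h1, h2]
      have h3 : g.1 * (g.1⁻¹ * S.cd y * g.1) * g.1⁻¹ = S.cd y := by group
      rw [h3, hpt] },
    by
      intro x y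
      show S.cd (pt (g.1 * S.cd x * g.1⁻¹) (idx (τ x))) =
        S.cd (pt (g.1 * S.cd y * g.1⁻¹) (idx (τ y))) ↔ _
      rw [(hidx _ (conj_mem S g.2 x) (idx (τ x))).1, (hidx _ (conj_mem S g.2 y) (idx (τ y))).1]
      simp⟩

/-- the sequence of permutations -/
def G : ℕ → {g : Perm A // Good S.cd g}
  | 0 => ⟨1, fun _ _ => Iff.rfl⟩
  | n + 1 => next S τ hτ hττ pt idx hpt hidx (G n)

include hτ hττ hpt hidx in
theorem main : ∃ g : ℕ → Perm A, g 0 = 1 ∧ (∀ n, Good S.cd (g n)) ∧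
    ∀ n x, g (n + 1) x = pt (g n * S.cd x * (g n)⁻¹) (idx (τ x)) :=
  ⟨fun n => (G S τ hτ hττ pt idx hpt hidx n).1, rfl,
    fun n => (G S τ hτ hττ pt idx hpt hidx n).2, fun _ _ => rfl⟩

end main

lemma not_her_of_moved {A : Type} (S : Sol A) (x z : A) (hz : S.cd x z ≠ z) :
    ¬ Her S.cd x z := by
  intro h
  have hwf : WellFounded (fun z y => S.cd y z ≠ z) :=
    ⟨S.ind (Acc fun z y => S.cd y z ≠ z) fun x h => Acc.intro x h⟩
  have h2 : ∃ y, S.cd x = S.cd y ∧ (y = z ∨ Relation.TransGen (fun z y => S.cd y z ≠ z) y z) := by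
    clear hz
    induction h with
    | base y h => exact ⟨y, h, Or.inl rfl⟩
    | step y z h _ ih =>
      obtain ⟨w, hw1, hw2⟩ := ih
      refine ⟨w, hw1, Or.inr ?_⟩
      rcases hw2 with rfl | hw2
      · exact Relation.TransGen.single h
      · exact Relation.TransGen.tail hw2 h
  obtain ⟨y, hy, h3⟩ := h2
  rw [hy] at hz
  have h4 : Relation.TransGen (fun z y => S.cd y z ≠ z) z y := Relation.TransGen.single hz
  rcases h3 with rfl | h3
  · exact hwf.transGen.irrefl.irrefl _ h4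
  · exact hwf.transGen.irrefl.irrefl _ (h4.trans h3)

theorem twist : S_TWIST := by
  classical
  intro A S x₀ x₁ hcd hne
  obtain ⟨pt, idx, hpt, hidx⟩ := exists_index S x₀
  set τ : Perm A := swap x₀ x₁ with hτd
  have hτ : ∀ x, S.cd (τ x) = S.cd x := by
    intro x
    rw [hτd, swap_apply_def]
    split_ifs with h1 h2
    · rw [h1, hcd]
    · rw [h2, hcd]
    · rfl
  have hττ : ∀ x, τ (τ x) = x := fun x => by
    rw [hτd, ← Perm.mul_apply, swap_mul_self, Perm.one_apply]
  obtain ⟨G, hG0, hGood, hGs⟩ := main S τ hτ hττ pt idx hpt hidx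
  -- the limit
  have hlim : ∀ x, ∃ a, ∀ᶠ n in atTop, G n x = a := by
    apply S.ind
    intro x ih
    have h1 : ∀ᶠ n in atTop, ∀ y ∈ {y | S.cd x y ≠ y}, G n y = if h : S.cd x y ≠ y then
        (ih y h).choose else y := by
      rw [eventually_all_finite (S.fty x)]
      intro y hy
      have h2 := (ih y hy).choose_spec
      have hy' : S.cd x y ≠ y := hy
      rw [dif_pos hy']
      exact h2
    obtain ⟨N, hN⟩ := eventually_atTop.1 h1
    refine ⟨G (N + 1) x, eventually_atTop.2 ⟨N + 1, fun n hn => ?_⟩⟩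
    obtain ⟨m, rfl⟩ : ∃ m, n = m + 1 := ⟨n - 1, by omega⟩
    rw [hGs, hGs, conj_agree (g := G m) (h := G N) fun y hy => ?_]
    rw [hN m (by omega) y hy, hN N le_rfl y hy]
  choose g hg using hlim
  have hinj : Function.Injective g := by
    intro x y hxy
    obtain ⟨n, h1, h2⟩ := ((hg x).and (hg y)).exists
    exact (G n).injective (by rw [h1, h2, hxy])
  have hsurj : Function.Surjective g := by
    apply S.ind
    intro y ih
    have h1 : ∀ᶠ n in atTop, ∀ z ∈ {z | S.cd y z ≠ z}, (G n)⁻¹ z = if h : S.cd y z ≠ z then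
        (ih z h).choose else z := by
      rw [eventually_all_finite (S.fty y)]
      intro z hz
      have h2 := (ih z hz).choose_spec
      have hz' : S.cd y z ≠ z := hz
      rw [dif_pos hz']
      filter_upwards [hg (ih z hz).choose] with n hn
      rw [h2] at hn
      exact Perm.inv_eq_iff_eq.2 hn.symm
    obtain ⟨N, hN⟩ := eventually_atTop.1 h1
    obtain ⟨u, hu⟩ := conj_mem S (hGood N).inv y
    have hcd' := (hidx _ ⟨u, hu⟩ (idx y)).1
    have hidx' := (hidx _ ⟨u, hu⟩ (idx y)).2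
    set v := pt ((G N)⁻¹ * S.cd y * (G N)⁻¹⁻¹) (idx y) with hv
    refine ⟨τ v, ?_⟩
    obtain ⟨n, hn1, hn2⟩ := ((hg (τ v)).and (eventually_ge_atTop (N + 1))).exists
    obtain ⟨m, rfl⟩ : ∃ m, n = m + 1 := ⟨n - 1, by omega⟩
    rw [← hn1, hGs, hτ, hττ, hcd', hidx']
    have h3 : (G N)⁻¹ * S.cd y * (G N)⁻¹⁻¹ = (G m)⁻¹ * S.cd y * (G m)⁻¹⁻¹ := by
      apply conj_agree
      intro z hz
      rw [hN m (by omega) z hz, hN N le_rfl z hz]
    rw [h3]
    have h4 : G m * ((G m)⁻¹ * S.cd y * (G m)⁻¹⁻¹) * (G m)⁻¹ = S.cd y := by group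
    rw [h4, hpt]
  -- elements not above x₀
  have hfix : ∀ n y, ¬ Her S.cd x₀ y → G n y = y := by
    intro n
    induction n with
    | zero =>
      intro y _
      rw [hG0]
      rfl
    | succ n ih =>
      intro y hy
      have h1 : S.cd x₀ ≠ S.cd y := fun h => hy (Her.base y h)
      have h2 : τ y = y := swap_apply_of_ne_of_ne (fun h => h1 (by rw [h]))
        (fun h => h1 (by rw [h, hcd]))
      have h3 : G n * S.cd y * (G n)⁻¹ = 1 * S.cd y * 1⁻¹ := by
        apply conj_agree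
        intro z hz
        rw [ih z fun h => hy (Her.step y z hz h)]
        rfl
      rw [hGs, h3, h2]
      simpa using hpt y
  have hcls : ∀ x, S.cd x = S.cd x₀ → g x = τ x := by
    intro x hx
    obtain ⟨n, hn1, hn2⟩ := ((hg x).and (eventually_ge_atTop 1)).exists
    obtain ⟨m, rfl⟩ : ∃ m, n = m + 1 := ⟨n - 1, by omega⟩
    have h3 : G m * S.cd x * (G m)⁻¹ = 1 * S.cd x * 1⁻¹ := by
      apply conj_agree
      intro z hz
      rw [hfix m z (not_her_of_moved S x₀ z (by rwa [← hx]))]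
      rfl
    rw [← hn1, hGs, h3]
    have h4 : (1 : Perm A) * S.cd x * 1⁻¹ = S.cd (τ x) := by
      rw [hτ]
      simp
    rw [h4, hpt]
  refine ⟨Equiv.ofBijective g ⟨hinj, hsurj⟩, ?_, ?_, ?_, ?_⟩
  · intro x
    have h1 : ∀ᶠ n in atTop, ∀ y ∈ {y | S.cd x y ≠ y}, G n y = g y := by
      rw [eventually_all_finite (S.fty x)]
      intro y _
      exact hg y
    have h2 : ∀ᶠ n in atTop, G (n + 1) x = g x := (tendsto_add_atTop_nat 1).eventually (hg x)
    obtain ⟨n, h3, h4⟩ := (h1.and h2).exists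
    show S.cd (g x) = _
    rw [← h4, hGs, (hidx _ (conj_mem S (hGood n) x) _).1]
    apply conj_agree
    intro y hy
    exact h3 y hy
  · show g x₀ = x₁
    rw [hcls x₀ rfl, hτd, swap_apply_left]
  · intro y hy h1 h2
    show g y = y
    rw [hcls y hy, hτd, swap_apply_of_ne_of_ne h1 h2]
  · intro y hy
    show g y = y
    obtain ⟨n, hn⟩ := (hg y).exists
    rw [← hn, hfix n y hy]

end Pool.Agent.W335.PT
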